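import Pool.Agent.X19.SS.Stm2

set_option autoImplicit false

open scoped Matrix InnerProductSpace

namespace Pool.Agent.X284.SS

open Pool.Agent.X19.SS InnerProductSpace

theorem t_F1 : S_F1 := by
  intro K _ l q Om
  classical
  let E := EuclideanSpace K (Fin (l + q))
  let col : Fin l → E := fun j => WithLp.toLp 2 (fun i => Om i j)
  let f : Fin (l + q) → E := fun i => if h : i.val < l then col ⟨i.val, h⟩ else 0
  have hcard : Module.finrank K E = Fintype.card (Fin (l + q)) :=
    finrank_euclideanSpace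
  let b0 := gramSchmidtOrthonormalBasis hcard f
  let b : OrthonormalBasis (Fin l ⊕ Fin q) K E := b0.reindex finSumFinEquiv.symm
  have hb : ∀ (j : Fin l) (k : Fin q), ⟪b (Sum.inr k), col j⟫_K = 0 := by
    intro j k
    have h1 : b (Sum.inr k) = b0 (Fin.natAdd l k) := by
      simp [b]
    have h2 : col j = f (Fin.castAdd q j) := by
      simp [f]
    rw [h1, h2]
    apply gramSchmidtOrthonormalBasis_inv_triangular
    rw [Fin.lt_def]
    simp only [Fin.val_castAdd, Fin.val_natAdd]
    have := j.isLt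
    omega
  refine ⟨b.repr, Matrix.of fun j i => ⟪col j, b (Sum.inl i)⟫_K, ?_⟩
  intro y
  funext j
  have h3 : (Omᴴ *ᵥ y) j = ⟪col j, WithLp.toLp 2 y⟫_K := by
    simp only [Matrix.mulVec, dotProduct, Matrix.conjTranspose_apply, col]
    refine Finset.sum_congr rfl fun i _ => ?_
    simp [mul_comm]
  rw [h3, ← b.sum_inner_mul_inner (col j) (WithLp.toLp 2 y)]
  rw [Fintype.sum_sum_type]
  have h4 : ∑ k : Fin q, ⟪col j, b (Sum.inr k)⟫_K * ⟪b (Sum.inr k), WithLp.toLp 2 y⟫_K = 0 := by
    apply Finset.sum_eq_zero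
    intro k _
    rw [← inner_conj_symm, hb j k]
    simp
  rw [h4, add_zero]
  simp only [Matrix.mulVec, dotProduct, Matrix.of_apply]
  refine Finset.sum_congr rfl fun i _ => ?_
  congr 1
  exact (b.repr_apply_apply (WithLp.toLp 2 y) (Sum.inl i)).symm

end Pool.Agent.X284.SS
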